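import Pool.Agent.R212.PD9

set_option autoImplicit false

open MeasureTheory Set
open Pool.Agent.H305R3.FC Pool.Agent.R212.PD

namespace Pool.Agent.Results.MP_37caee_an.TouchingUnique

/-- In every dimension `n + 2 ≥ 2` and for every `0 < s < 1/2`: the unit ball `Ω` and the disjoint
open sets `W₁ = {|x| > 1, x_0 > 0}`, `W₂ = {|x| > 1, x_0 < 0}` touching `Ω` admit no counterexample
to uniqueness in the partial data problem of the fractional conductivity equation. -/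
theorem result (n : ℕ) (s : ℝ) (hs : 0 < s) (hs2 : s < 1 / 2) :
    ∃ Ω W₁ W₂ : Set (EuclideanSpace ℝ (Fin (n + 2))),
      Ω = Metric.ball 0 1 ∧ W₁ = {x | 1 < ‖x‖ ∧ 0 < x 0} ∧ W₂ = {x | 1 < ‖x‖ ∧ x 0 < 0} ∧
      s < min 1 (((n + 2 : ℕ) : ℝ) / 2) ∧
      IsOpen Ω ∧ BddOneDir Ω ∧ IsOpen W₁ ∧ IsOpen W₂ ∧ W₁.Nonempty ∧ W₂.Nonempty ∧
      Disjoint W₁ W₂ ∧ W₁ ⊆ (closure Ω)ᶜ ∧ W₂ ⊆ (closure Ω)ᶜ ∧
      (∀ ε : ℝ, 0 < ε → ∃ x ∈ W₁ ∪ W₂, ∃ y ∈ Ω, dist x y < ε) ∧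
      ∀ γ₁ γ₂ : EuclideanSpace ℝ (Fin (n + 2)) → ℝ, Admis s γ₁ → Admis s γ₂ →
        SameData s Ω W₁ W₂ γ₁ γ₂ → γ₁ =ᵐ[volume] γ₂ := by
  have h1 : ({x | 1 < ‖x‖ ∧ 0 < x 0} : Set (EuclideanSpace ℝ (Fin (n + 2)))) = Wp n 1 := by
    ext x
    simp [Wp]
  have h2 : ({x | 1 < ‖x‖ ∧ x 0 < 0} : Set (EuclideanSpace ℝ (Fin (n + 2)))) = Wp n (-1) := by
    ext x
    simp [Wp]
  refine ⟨_, _, _, rfl, h1.symm, h2.symm, ?_, Metric.isOpen_ball, ball_bdd, Wp_open 1,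
    Wp_open (-1), ?_, ?_, ?_, Wp_sub 1, Wp_sub (-1), fun ε hε => touch hε,
    fun γ₁ γ₂ g1 g2 hD => uniq hs hs2 g1 g2 hD⟩
  · apply lt_min
    · linarith
    · push_cast
      have : (0:ℝ) ≤ n := n.cast_nonneg
      linarith
  · refine ⟨(2:ℝ) • e1 n, ?_, ?_⟩
    · rw [norm_smul, e1_norm]
      norm_num
    · have : ((2:ℝ) • e1 n) 0 = 2 := by simp [e1]
      rw [this]
      norm_num
  · refine ⟨(-2:ℝ) • e1 n, ?_, ?_⟩
    · rw [norm_smul, e1_norm]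
      norm_num
    · have : ((-2:ℝ) • e1 n) 0 = -2 := by simp [e1]
      rw [this]
      norm_num
  · rw [Set.disjoint_left]
    intro x hx hx2
    have h3 := hx.2
    have h4 := hx2.2
    linarith

end Pool.Agent.Results.MP_37caee_an.TouchingUnique
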